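import Pool.Agent.V5helper41.PD.Stm
import Pool.Agent.W237.RK.Gal

/-! # Project PD, job GAL: the Galois correspondence -/

set_option autoImplicit false

namespace V5helper31.PD

open Pool.Agent.W237.RK V5helper41.PD

theorem t_GAL : S_GAL := fun F x hx => mem_of_fix F x hx

end V5helper31.PD
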